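import Mathlib
import Pool.Agent.H934R4.AN.Final

/-!
# The simple Anosov domain is not a maximal domain of discontinuity

The definitions are in `Pool.Agent.H934R4.AN.Defs`; `I4 = Fin 2 × Fin 2` is an index set with four
elements, so `CharVar Γ I4` is the character variety of `Γ` in `SL(4,ℂ)`.
-/

set_option autoImplicit false

open scoped MatrixGroups

namespace Pool.Agent.Results.MP_c30652_gt.NotMaximal

open Pool.Agent.H934R4.AN

/-- For some closed hyperbolic surface `ℍ/Γ` the simple 1-Anosov domain in the character variety of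
`Γ` in `SL(4,ℂ)` is not a maximal domain of discontinuity for the mapping class group; there is a
point outside it which can be added to every domain of discontinuity. -/
theorem result : ∃ Γ : Subgroup SL(2, ℝ), IsSurfaceGroup Γ ∧
    ¬ IsMaximalDoD (simpleAnosovDomain Γ I4 1) ∧
    ∃ x : CharVar Γ I4, x ∉ simpleAnosovDomain Γ I4 1 ∧ ∀ Ω : Set (CharVar Γ I4), IsDoD Ω →
      ∃ Ω' : Set (CharVar Γ I4), IsDoD Ω' ∧ Ω ⊆ Ω' ∧ x ∈ Ω' :=
  main

end Pool.Agent.Results.MP_c30652_gt.NotMaximal
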